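import Pool.Agent.Q228.Rep.Fin

/-!
# Every edge net of the unit cube has a uniform rep-cube

Definitions in `Pool/Agent/Q228/Rep/NetDefs.lean`.
-/

set_option autoImplicit false

namespace Pool.Agent.Results.MP_0163eb_co.AllEleven

open Pool.Agent.Helper697.Rep Pool.Agent.Q228.Rep

/-- For every edge net `N` of the unit cube there is a rep-cube `P` of some order `k`, `2 ≤ k ≤ 8`,
all of whose pieces are congruent to `N`; neither `P` nor the pieces have holes. -/
theorem result (N : Finset (ℤ × ℤ)) (hN : IsEdgeNet N) :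
    ∃ k, (2 ≤ k ∧ k ≤ 8) ∧ ∃ P Q, RepCube k P Q ∧ NoHoles P ∧
      ∀ A ∈ Q, NoHoles A ∧ Congruent N A :=
  uniform N hN

end Pool.Agent.Results.MP_0163eb_co.AllEleven
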